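import Mathlib
import Pool.Agent.H.MP_4fee6f_ag.E

set_option autoImplicit false

namespace Pool.Agent.Results.MP_6bebef_ag.FatPoints

universe u

/-- The homogeneous ideal `I(P)` of a point of projective `N`-space over `K`: the ideal
generated by all forms vanishing at `P`. -/
noncomputable def ptIdeal {K : Type u} [Field K] {N : ℕ} (P : Projectivization K (Fin (N + 1) → K)) :
    Ideal (MvPolynomial (Fin (N + 1)) K) :=
  Ideal.span {g : MvPolynomial (Fin (N + 1)) K |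
    (∃ d : ℕ, g.IsHomogeneous d) ∧ MvPolynomial.eval P.rep g = 0}

/-- The ideal `I(mZ)` for the fat point scheme `Z = μ 0 • P 0 + ... + μ (s-1) • P (s-1)`. -/
noncomputable def fatIdeal {K : Type u} [Field K] {N s : ℕ}
    (P : Fin s → Projectivization K (Fin (N + 1) → K)) (μ : Fin s → ℕ) (m : ℕ) :
    Ideal (MvPolynomial (Fin (N + 1)) K) :=
  ⨅ i, ptIdeal (P i) ^ (m * μ i)

/-- The least degree of a nonzero element of `J`. -/
noncomputable def alpha {K : Type u} [Field K] {N : ℕ}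
    (J : Ideal (MvPolynomial (Fin (N + 1)) K)) : ℕ :=
  sInf {d : ℕ | ∃ f ∈ J, f ≠ 0 ∧ f.totalDegree = d}

lemma alpha_fat {K : Type u} [Field K] {N s : ℕ} (hN : 1 ≤ N)
    (P : Fin s → Projectivization K (Fin (N + 1) → K)) (μ : Fin s → ℕ) (m : ℕ) :
    alpha (fatIdeal P μ m) = Pool.Agent.H.MP_4fee6f_ag.aH
      (Pool.Agent.H.MP_4fee6f_ag.fat (fun i => (P i).rep) (fun i => m * μ i)) := by
  rw [← Pool.Agent.H.MP_4fee6f_ag.aT_eq_aH hN (fun i => (P i).rep) (fun i => (P i).rep_nonzero)]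
  have : fatIdeal P μ m
      = Pool.Agent.H.MP_4fee6f_ag.fat (fun i => (P i).rep) (fun i => m * μ i) := by
    unfold Pool.Agent.H.MP_4fee6f_ag.fat fatIdeal ptIdeal
    refine iInf_congr fun i => ?_
    rw [Pool.Agent.H.MP_4fee6f_ag.span_forms (P i).rep (P i).rep_nonzero]
  rw [this]
  rfl

theorem result :
    ∀ (K : Type u) [Field K] (N : ℕ), 1 ≤ N →
    ∀ (s : ℕ) (P : Fin s → Projectivization K (Fin (N + 1) → K)), Function.Injective P →
    ∀ (μ : Fin s → ℕ), (∃ i, μ i ≠ 0) →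
    ∃ L : ℝ, Filter.Tendsto (fun n : ℕ => (alpha (fatIdeal P μ n) : ℝ) / (n : ℝ))
        Filter.atTop (nhds L) ∧
      ∀ m : ℕ, 1 ≤ m →
        ((alpha (fatIdeal P μ m) : ℝ) + (N : ℝ) - 1) / ((m : ℝ) + (N : ℝ) - 1) ≤ L := by
  intro K _ N hN s P _ μ hμ
  simp only [alpha_fat hN]
  exact Pool.Agent.H.MP_4fee6f_ag.wald hN (fun i => (P i).rep) (fun i => (P i).rep_nonzero) μ hμ

end Pool.Agent.Results.MP_6bebef_ag.FatPoints
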